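import Pool.Agent.H71.AL.Targets

/-!
# The dense set is canonical if and only if the order with its maps is
-/

set_option autoImplicit false

open Set
open Pool.Agent.AL

namespace Pool.Agent.H74.ALV.TRC

variable {ι : Type} {G : ι → ℝ → ℝ}

theorem sr_out {y z : ℝ} (h : Sr rl G y z) :
    ∃ p q : ℝ, Gd rl G p q ∧ p < y ∧ y < q ∧ p < z ∧ z < q := by
  obtain ⟨p, q, h1, ⟨h2, h3⟩, h4, h5⟩ := h
  exact ⟨p, q, h1, h2, h3, h4, h5⟩

theorem sr_mk {p q y z : ℝ} (h : Gd rl G p q) (h1 : p < y) (h2 : y < q) (h3 : p < z)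
    (h4 : z < q) : Sr rl G y z := ⟨p, q, h, ⟨h1, h2⟩, h3, h4⟩

theorem ws_out {y : ℝ} (h : Ws rl G y) : ∃ p q : ℝ, Gd rl G p q ∧ p < y ∧ y < q := h

theorem ws_mk {p q y : ℝ} (h : Gd rl G p q) (h1 : p < y) (h2 : y < q) : Ws rl G y :=
  ⟨p, q, h, h1, h2⟩

theorem iter_mono {f : ℝ → ℝ} (hf : StrictMono f) (n : ℕ) : StrictMono f^[n] := hf.iterate n

theorem iter_ge {f : ℝ → ℝ} (hf : StrictMono f) {x : ℝ} (h : x < f x) (n : ℕ) : x ≤ f^[n] x := by
  induction n with
  | zero => exact le_rfl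
  | succ n ih =>
    rw [Function.iterate_succ_apply']
    exact le_trans h.le (hf.monotone ih)

theorem iter_le {f : ℝ → ℝ} (hf : StrictMono f) {x : ℝ} (h : f x ≤ x) (n : ℕ) : f^[n] x ≤ x := by
  induction n with
  | zero => exact le_rfl
  | succ n ih =>
    rw [Function.iterate_succ_apply']
    exact le_trans (hf.monotone ih) h

theorem iter_ge' {f : ℝ → ℝ} (hf : StrictMono f) {x : ℝ} (h : x ≤ f x) (n : ℕ) : x ≤ f^[n] x := by
  induction n with
  | zero => exact le_rfl
  | succ n ih =>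
    rw [Function.iterate_succ_apply']
    exact le_trans h (hf.monotone ih)

theorem iter_eq {g : ι → ℕ → ℕ} {e : ℕ → ℝ} (h : ∀ i m, e (g i m) = G i (e m)) (i : ι) (m n : ℕ) :
    e ((g i)^[n] m) = (G i)^[n] (e m) := by
  induction n with
  | zero => rfl
  | succ n ih => rw [Function.iterate_succ_apply', Function.iterate_succ_apply', h, ih]

/-- increasing iterates -/
theorem lm_up {f : ℝ → ℝ} (_hf : StrictMono f) {y x : ℝ} (h : Lm rl f y x) (hyx : y < x) :
    (∀ n, f^[n] y < x) ∧ ∀ z, z < x → ∃ n : ℕ, z < f^[n] y := by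
  rcases h with ⟨-, h2, h3⟩ | ⟨h1, h2, -⟩
  · exact ⟨h2, h3⟩
  · exact absurd (h2 0) (not_lt.2 hyx.le)

theorem lm_down {f : ℝ → ℝ} {y x : ℝ} (h : Lm rl f y x) (hyx : x < y) :
    (∀ n, x < f^[n] y) ∧ ∀ z, x < z → ∃ n : ℕ, f^[n] y < z := by
  rcases h with ⟨-, h2, -⟩ | ⟨h1, h2, h3⟩
  · exact absurd (h2 0) (not_lt.2 hyx.le)
  · exact ⟨h2, h3⟩

/-- a strictly decreasing surjection has a fixed point -/
theorem fix_dec {f : ℝ → ℝ} (hf : ∀ x y, x < y → f y < f x) (hs : Function.Surjective f) :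
    ∃ x, f x = x := by
  have hm : StrictMono (fun x => -f x) := fun x y h => neg_lt_neg (hf x y h)
  have hsur : Function.Surjective (fun x => -f x) := by
    intro y
    obtain ⟨x, hx⟩ := hs (-y)
    exact ⟨x, by simp [hx]⟩
  have hc : Continuous (fun x => -f x) :=
    (StrictMono.orderIsoOfSurjective _ hm hsur).continuous
  have hcf : Continuous f := by
    have h1 : Continuous (fun x => -(-f x)) := hc.neg
    have h2 : (fun x => -(-f x)) = f := funext fun x => neg_neg _
    rwa [h2] at h1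
  have hg : Continuous (fun x => f x - x) := hcf.sub continuous_id
  obtain ⟨a, ha⟩ : ∃ a, a = min 0 (f 0) - 1 := ⟨_, rfl⟩
  obtain ⟨b, hb⟩ : ∃ b, b = max 0 (f 0) + 1 := ⟨_, rfl⟩
  have ha0 : a < 0 := by
    have := min_le_left (0 : ℝ) (f 0)
    linarith
  have ha1 : a < f 0 := by
    have := min_le_right (0 : ℝ) (f 0)
    linarith
  have hb0 : 0 < b := by
    have := le_max_left (0 : ℝ) (f 0)
    linarith
  have hb1 : f 0 < b := by
    have := le_max_right (0 : ℝ) (f 0)
    linarith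
  have hfa : 0 ≤ f a - a := by
    have := hf a 0 ha0
    linarith
  have hfb : f b - b ≤ 0 := by
    have := hf 0 b hb0
    linarith
  have hab : a ≤ b := by linarith
  obtain ⟨x, -, hx⟩ := intermediate_value_Icc' hab hg.continuousOn
    (show (0 : ℝ) ∈ Icc (f b - b) (f a - a) from ⟨hfb, hfa⟩)
  exact ⟨x, by simpa [sub_eq_zero] using hx⟩

/-- a neighbourhood disjoint from `Fc` -/
theorem nb {x : ℝ} (h : x ∉ Fc G) : ∃ ε : ℝ, 0 < ε ∧ ∀ z, |z - x| < ε → z ∉ Fc G := by
  have h1 : IsOpen (Fc G)ᶜ := isClosed_closure.isOpen_compl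
  obtain ⟨ε, hε, h2⟩ := Metric.isOpen_iff.1 h1 x h
  exact ⟨ε, hε, fun z hz => h2 (by rwa [Metric.mem_ball, Real.dist_eq])⟩

theorem fc_of {z : ℝ} (h : Es rl G z) : z ∈ Fc G := subset_closure h

/-- an interval without special points is disjoint from `Fc` -/
theorem fc_int {p q : ℝ} (h : ∀ z, p < z → z < q → ¬ Es rl G z) {x : ℝ} (h1 : p < x)
    (h2 : x < q) : x ∉ Fc G := by
  intro hx
  obtain ⟨z, hz, hz'⟩ := mem_closure_iff.1 hx (Ioo p q) isOpen_Ioo ⟨h1, h2⟩
  exact h z hz.1 hz.2 hz'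

end Pool.Agent.H74.ALV.TRC

namespace Pool.Agent.H74.ALV

open TRC

/-- the first direction: special points -/
theorem TRC.es_mem (hT : T_TRF) {ι : Type} {G : ι → ℝ → ℝ} {lt : ℕ → ℕ → Prop} {g : ι → ℕ → ℕ}
    {e : ℕ → ℝ} (h : Tr G lt g e) (hC : Cn lt g) (x : ℝ) (hx : Es rl G x) : x ∈ range e := by
  obtain ⟨tWs, tSr, tInc, tDec, tLm, tEs⟩ := hT ι G lt g e h
  have hord := h.em.ord
  have hden : ∀ p q : ℝ, p < q → ∃ n, p < e n ∧ e n < q := by
    intro p q hpq
    obtain ⟨d, ⟨n, rfl⟩, h1, h2⟩ := h.em.den p q hpq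
    exact ⟨n, h1, h2⟩
  have hit := fun i m n => iter_eq h.eq i m n
  rcases hx with (⟨i, y, hi, hl⟩ | ⟨i, hi, hfx⟩) | ⟨hnW, y, h2⟩
  · have hf : StrictMono (G i) := fun a b hab => hi a b hab
    have hyx : y ≠ x := by
      rintro rfl
      rcases hl with ⟨h1, -, -⟩ | ⟨h1, -, -⟩
      · exact lt_irrefl _ h1
      · exact lt_irrefl _ h1
    rcases lt_or_gt_of_ne hyx with hyx | hyx
    · -- increasing iterates
      obtain ⟨hb, hs⟩ := lm_up hf hl hyx
      obtain ⟨m0, hm1, hm2⟩ := hden y x hyx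
      have hb' : ∀ n, (G i)^[n] (e m0) < x := by
        intro n
        obtain ⟨N, hN⟩ := hs _ hm2
        have h3 := iter_mono hf n hN
        rw [← Function.iterate_add_apply] at h3
        exact lt_trans h3 (hb _)
      have hs' : ∀ z, z < x → ∃ n : ℕ, z < (G i)^[n] (e m0) := by
        intro z hz
        obtain ⟨n, hn⟩ := hs z hz
        exact ⟨n, lt_trans hn (iter_mono hf n hm1)⟩
      have hd : e m0 < G i (e m0) := by
        by_contra hcon
        obtain ⟨n, hn⟩ := hs' _ hm2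
        exact absurd hn (not_lt.2 (iter_le hf (not_lt.1 hcon) n))
      obtain ⟨m1, hm3, -⟩ := hden x (x + 1) (by linarith)
      obtain ⟨x0, hx0⟩ := hC.k1 i m0 m1 ((tInc i).2 hi)
        (by rw [hord, h.eq]; exact hd)
        (fun n => by rw [hord, hit]; exact lt_trans (hb' n) hm3)
      have hx1 := (tLm i m0 x0).1 hx0
      have hlt : e m0 < e x0 := by
        rcases hx1 with ⟨h3, -, -⟩ | ⟨h3, -, h4⟩
        · exact h3
        · obtain ⟨n, hn⟩ := h4 _ h3
          exact absurd hn (not_lt.2 (iter_ge hf hd n))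
      obtain ⟨hb2, hs2⟩ := lm_up hf hx1 hlt
      refine ⟨x0, ?_⟩
      rcases lt_trichotomy (e x0) x with h3 | h3 | h3
      · obtain ⟨n, hn⟩ := hs' _ h3
        exact absurd (hb2 n) (not_lt.2 hn.le)
      · exact h3
      · obtain ⟨n, hn⟩ := hs2 _ h3
        exact absurd (hb' n) (not_lt.2 hn.le)
    · -- decreasing iterates
      obtain ⟨hb, hs⟩ := lm_down hl hyx
      obtain ⟨m0, hm1, hm2⟩ := hden x y hyx
      have hb' : ∀ n, x < (G i)^[n] (e m0) := by
        intro n
        obtain ⟨N, hN⟩ := hs _ hm1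
        have h3 := iter_mono hf n hN
        rw [← Function.iterate_add_apply] at h3
        exact lt_trans (hb _) h3
      have hs' : ∀ z, x < z → ∃ n : ℕ, (G i)^[n] (e m0) < z := by
        intro z hz
        obtain ⟨n, hn⟩ := hs z hz
        exact ⟨n, lt_trans (iter_mono hf n hm2) hn⟩
      have hd : G i (e m0) < e m0 := by
        by_contra hcon
        obtain ⟨n, hn⟩ := hs' _ hm1
        exact absurd hn (not_lt.2 (iter_ge' hf (not_lt.1 hcon) n))
      obtain ⟨m1, -, hm3⟩ := hden (x - 1) x (by linarith)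
      obtain ⟨x0, hx0⟩ := hC.k1' i m0 m1 ((tInc i).2 hi)
        (by rw [hord, h.eq]; exact hd)
        (fun n => by rw [hord, hit]; exact lt_trans hm3 (hb' n))
      have hx1 := (tLm i m0 x0).1 hx0
      have hlt : e x0 < e m0 := by
        rcases hx1 with ⟨h3, -, h4⟩ | ⟨h3, -, -⟩
        · obtain ⟨n, hn⟩ := h4 _ h3
          exact absurd hn (not_lt.2 (iter_le hf hd.le n))
        · exact h3
      obtain ⟨hb2, hs2⟩ := lm_down hx1 hlt
      refine ⟨x0, ?_⟩
      rcases lt_trichotomy (e x0) x with h3 | h3 | h3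
      · obtain ⟨n, hn⟩ := hs2 _ h3
        exact absurd (hb' n) (not_lt.2 hn.le)
      · exact h3
      · obtain ⟨n, hn⟩ := hs' _ h3
        exact absurd (hb2 n) (not_lt.2 hn.le)
  · -- fixed points of decreasing maps
    obtain ⟨x0, hx0⟩ := hC.k1a i ((tDec i).2 hi)
    have h3 : G i (e x0) = e x0 := by rw [← h.eq, hx0]
    refine ⟨x0, ?_⟩
    rcases lt_trichotomy (e x0) x with h4 | h4 | h4
    · have h5 : G i x < G i (e x0) := hi _ _ h4
      rw [h3, hfx] at h5
      exact absurd h5 (not_lt.2 h4.le)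
    · exact h4
    · have h5 : G i (e x0) < G i x := hi _ _ h4
      rw [h3, hfx] at h5
      exact absurd h5 (not_lt.2 h4.le)
  · rcases h2 with ⟨hyx, hz⟩ | ⟨hyx, hz⟩
    · have hyx : y < x := hyx
      obtain ⟨m0, hm1, hm2⟩ := hden y x hyx
      have hS : ∀ z, e m0 < z → z < x → Sr rl G (e m0) z := by
        intro z hz1 hz2
        obtain ⟨p, q, h3, h4, h5, h6, h7⟩ := sr_out (hz z (lt_trans hm1 hz1) hz2)
        exact sr_mk h3 (by linarith) (by linarith) h6 h7
      have hN : ∀ z, x ≤ z → ¬ Sr rl G (e m0) z := by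
        intro z hz1 hz2
        obtain ⟨p, q, h3, h4, h5, h6, h7⟩ := sr_out hz2
        exact hnW (ws_mk h3 (by linarith) (by linarith))
      have hW : Ws rl G (e m0) := by
        obtain ⟨m2, h3, h4⟩ := hden _ _ hm2
        obtain ⟨p, q, h5, h6, h7, -, -⟩ := sr_out (hS _ h3 h4)
        exact ws_mk h5 h6 h7
      obtain ⟨m1, hm3, -⟩ := hden x (x + 1) (by linarith)
      rcases hC.k2 m0 m1 ((tWs m0).2 hW) (by rw [hord]; linarith)
        (by rw [tSr]; exact hN _ hm3.le) with ⟨x0, h3, h4, h5⟩ | ⟨t, z, h3, h4, h5, h6, h7⟩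
      · rw [hord] at h3
        rw [tWs] at h4
        refine ⟨x0, ?_⟩
        rcases lt_trichotomy (e x0) x with h6 | h6 | h6
        · obtain ⟨p, q, h7, -, -, h8, h9⟩ := sr_out (hS _ h3 h6)
          exact absurd (ws_mk h7 h8 h9) h4
        · exact h6
        · obtain ⟨z, h7, h8⟩ := hden _ _ h6
          have h9 := h5 z ((hord _ _).2 (by linarith)) ((hord _ _).2 h8)
          rw [tSr] at h9
          exact absurd h9 (hN _ h7.le)
      · rw [hord] at h3 h4
        rw [tSr] at h5 h6 h7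
        have h8 : e t < x := by
          by_contra hcon
          exact hN _ (not_lt.1 hcon) h5
        have h9 : ¬ e z < x := fun hcon => h7 (hS _ (lt_trans h3 h4) hcon)
        obtain ⟨p, q, h10, h11, h12, h13, h14⟩ := sr_out h6
        exact absurd (ws_mk h10 (by linarith) (by linarith)) hnW
    · have hyx : x < y := hyx
      obtain ⟨m0, hm1, hm2⟩ := hden x y hyx
      have hS : ∀ z, x < z → z < e m0 → Sr rl G (e m0) z := by
        intro z hz1 hz2
        obtain ⟨p, q, h3, h4, h5, h6, h7⟩ := sr_out (hz z hz1 (lt_trans hz2 hm2))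
        exact sr_mk h3 (by linarith) (by linarith) h6 h7
      have hN : ∀ z, z ≤ x → ¬ Sr rl G (e m0) z := by
        intro z hz1 hz2
        obtain ⟨p, q, h3, h4, h5, h6, h7⟩ := sr_out hz2
        exact hnW (ws_mk h3 (by linarith) (by linarith))
      have hW : Ws rl G (e m0) := by
        obtain ⟨m2, h3, h4⟩ := hden _ _ hm1
        obtain ⟨p, q, h5, h6, h7, -, -⟩ := sr_out (hS _ h3 h4)
        exact ws_mk h5 h6 h7
      obtain ⟨m1, -, hm3⟩ := hden (x - 1) x (by linarith)
      rcases hC.k2' m0 m1 ((tWs m0).2 hW) (by rw [hord]; linarith)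
        (by rw [tSr]; exact hN _ hm3.le) with ⟨x0, h3, h4, h5⟩ | ⟨t, z, h3, h4, h5, h6, h7⟩
      · rw [hord] at h3
        rw [tWs] at h4
        refine ⟨x0, ?_⟩
        rcases lt_trichotomy (e x0) x with h6 | h6 | h6
        · obtain ⟨z, h7, h8⟩ := hden _ _ h6
          have h9 := h5 z ((hord _ _).2 h7) ((hord _ _).2 (by linarith))
          rw [tSr] at h9
          exact absurd h9 (hN _ h8.le)
        · exact h6
        · obtain ⟨p, q, h7, -, -, h8, h9⟩ := sr_out (hS _ h6 h3)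
          exact absurd (ws_mk h7 h8 h9) h4
      · rw [hord] at h3 h4
        rw [tSr] at h5 h6 h7
        have h8 : x < e t := by
          by_contra hcon
          exact hN _ (not_lt.1 hcon) h5
        have h9 : ¬ x < e z := fun hcon => h7 (hS _ hcon (lt_trans h4 h3))
        obtain ⟨p, q, h10, h11, h12, h13, h14⟩ := sr_out h6
        exact absurd (ws_mk h10 (by linarith) (by linarith)) hnW

theorem pf_TRC (hT : T_TRF) (hE : T_ESW) : T_TRC := by
  intro ι G lt g e h
  obtain ⟨tWs, tSr, tInc, tDec, tLm, tEs⟩ := hT ι G lt g e h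
  have hord := h.em.ord
  have hden : ∀ p q : ℝ, p < q → ∃ n, p < e n ∧ e n < q := by
    intro p q hpq
    obtain ⟨d, ⟨n, rfl⟩, h1, h2⟩ := h.em.den p q hpq
    exact ⟨n, h1, h2⟩
  have hit := fun i m n => iter_eq h.eq i m n
  have _ := hE
  constructor
  · intro hC
    have hes := fun x hx => TRC.es_mem hT h hC x hx
    refine ⟨hes, ?_, ?_⟩
    · rintro _ ⟨x0, rfl⟩ hx
      rcases hC.k3 x0 with h1 | ⟨p, q, h1, h2, h3⟩
      · exact (tEs x0).1 h1
      · rw [hord] at h1 h2
        exfalso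
        refine fc_int (p := e p) (q := e q) ?_ h1 h2 hx
        intro z hz1 hz2 hz3
        obtain ⟨z0, rfl⟩ := hes z hz3
        exact h3 z0 ((hord _ _).2 hz1) ((hord _ _).2 hz2) ((tEs z0).2 hz3)
    · rintro _ ⟨x0, rfl⟩ _ ⟨y0, rfl⟩ hxy hSC hW
      obtain ⟨ε, hε, h1⟩ := nb (hSC (e x0) left_mem_uIcc)
      obtain ⟨ε', hε', h2⟩ := nb (hSC (e y0) right_mem_uIcc)
      obtain ⟨p, hp1, hp2⟩ := hden (e x0 - ε) (e x0) (by linarith)
      obtain ⟨q, hq1, hq2⟩ := hden (e y0) (e y0 + ε') (by linarith)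
      obtain ⟨i, hi⟩ := hC.k4 x0 y0 ((hord _ _).2 hxy)
        ⟨p, q, (hord _ _).2 hp2, (hord _ _).2 hq1, by
          intro z hz1 hz2 hz3
          rw [hord] at hz1 hz2
          have hz4 := fc_of ((tEs z).1 hz3)
          rcases lt_or_ge (e z) (e x0) with h3 | h3
          · exact h1 _ (by rw [abs_lt]; constructor <;> linarith) hz4
          · rcases le_or_gt (e z) (e y0) with h4 | h4
            · exact hSC _ (by rw [uIcc_of_le hxy.le]; exact ⟨h3, h4⟩) hz4
            · exact h2 _ (by rw [abs_lt]; constructor <;> linarith) hz4⟩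
        (fun hcon => hW ((tWs x0).1 hcon))
      exact ⟨i, by rw [← h.eq, hi]⟩
  · intro hR
    have hsurj : ∀ i, Function.Surjective (G i) := by
      intro i y
      obtain ⟨j, -, hj⟩ := h.gp.inv i
      exact ⟨G j y, hj y⟩
    constructor
    · -- k1
      intro i y m hi hy hm
      have hi' := (tInc i).1 hi
      have hf : StrictMono (G i) := fun a b hab => hi' a b hab
      rw [hord, h.eq] at hy
      have hb : ∀ n : ℕ, (G i)^[n] (e y) < e m := by
        intro n
        rw [← hit]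
        exact (hord _ _).1 (hm n)
      have hstep : ∀ n : ℕ, (G i)^[n] (e y) < (G i)^[n + 1] (e y) := by
        intro n
        rw [Function.iterate_succ_apply]
        exact iter_mono hf n hy
      have hbdd : BddAbove (range fun n : ℕ => (G i)^[n] (e y)) :=
        ⟨e m, by rintro _ ⟨n, rfl⟩; exact (hb n).le⟩
      obtain ⟨s, hs⟩ : ∃ s, s = sSup (range fun n : ℕ => (G i)^[n] (e y)) := ⟨_, rfl⟩
      have hle : ∀ n : ℕ, (G i)^[n] (e y) ≤ s := fun n => by
        rw [hs]; exact le_csSup hbdd ⟨n, rfl⟩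
      have hlt : ∀ n : ℕ, (G i)^[n] (e y) < s := fun n => lt_of_lt_of_le (hstep n) (hle _)
      have hap : ∀ z, z < s → ∃ n : ℕ, z < (G i)^[n] (e y) := by
        intro z hz
        rw [hs] at hz
        obtain ⟨_, ⟨n, rfl⟩, hn⟩ := exists_lt_of_lt_csSup (range_nonempty _) hz
        exact ⟨n, hn⟩
      have hLm : Lm rl (G i) (e y) s := Or.inl ⟨hlt 0, hlt, hap⟩
      obtain ⟨x, hx⟩ := hR.es s (Or.inl (Or.inl ⟨i, e y, hi', hLm⟩))
      refine ⟨x, (tLm i y x).2 ?_⟩
      rw [hx]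
      exact hLm
    · -- k1'
      intro i y m hi hy hm
      have hi' := (tInc i).1 hi
      have hf : StrictMono (G i) := fun a b hab => hi' a b hab
      rw [hord, h.eq] at hy
      have hb : ∀ n : ℕ, e m < (G i)^[n] (e y) := by
        intro n
        rw [← hit]
        exact (hord _ _).1 (hm n)
      have hstep : ∀ n : ℕ, (G i)^[n + 1] (e y) < (G i)^[n] (e y) := by
        intro n
        rw [Function.iterate_succ_apply]
        exact iter_mono hf n hy
      have hbdd : BddBelow (range fun n : ℕ => (G i)^[n] (e y)) :=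
        ⟨e m, by rintro _ ⟨n, rfl⟩; exact (hb n).le⟩
      obtain ⟨s, hs⟩ : ∃ s, s = sInf (range fun n : ℕ => (G i)^[n] (e y)) := ⟨_, rfl⟩
      have hle : ∀ n : ℕ, s ≤ (G i)^[n] (e y) := fun n => by
        rw [hs]; exact csInf_le hbdd ⟨n, rfl⟩
      have hlt : ∀ n : ℕ, s < (G i)^[n] (e y) := fun n => lt_of_le_of_lt (hle _) (hstep n)
      have hap : ∀ z, s < z → ∃ n : ℕ, (G i)^[n] (e y) < z := by
        intro z hz
        rw [hs] at hz
        obtain ⟨_, ⟨n, rfl⟩, hn⟩ := exists_lt_of_csInf_lt (range_nonempty _) hz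
        exact ⟨n, hn⟩
      have hLm : Lm rl (G i) (e y) s := Or.inr ⟨hlt 0, hlt, hap⟩
      obtain ⟨x, hx⟩ := hR.es s (Or.inl (Or.inl ⟨i, e y, hi', hLm⟩))
      refine ⟨x, (tLm i y x).2 ?_⟩
      rw [hx]
      exact hLm
    · -- k1a
      intro i hi
      have hi' := (tDec i).1 hi
      obtain ⟨x, hx⟩ := fix_dec (f := G i) (fun a b hab => hi' a b hab) (hsurj i)
      obtain ⟨x0, rfl⟩ := hR.es x (Or.inl (Or.inr ⟨i, hi', hx⟩))
      exact ⟨x0, h.em.inj (by rw [h.eq, hx])⟩
    · -- k2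
      intro y m hW hym hnS
      rw [tWs] at hW
      rw [hord] at hym
      rw [tSr] at hnS
      obtain ⟨p, q, hpq, hp, hq⟩ := ws_out hW
      have hbd : ∀ z, e y ≤ z → Sr rl G (e y) z → z < e m := by
        intro z hz1 hz2
        by_contra hcon
        obtain ⟨a, b, h1, h2, h3, h4, h5⟩ := sr_out hz2
        exact hnS (sr_mk h1 h2 h3 (by linarith) (by linarith))
      obtain ⟨A, hA⟩ : ∃ A : Set ℝ, A = {z | e y ≤ z ∧ Sr rl G (e y) z} := ⟨_, rfl⟩
      have hAb : BddAbove A := ⟨e m, by rw [hA]; rintro z ⟨h1, h2⟩; exact (hbd z h1 h2).le⟩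
      have hAn : A.Nonempty := ⟨e y, by rw [hA]; exact ⟨le_rfl, sr_mk hpq hp hq hp hq⟩⟩
      obtain ⟨s, hs⟩ : ∃ s, s = sSup A := ⟨_, rfl⟩
      have hle : ∀ z, e y ≤ z → Sr rl G (e y) z → z ≤ s := by
        intro z h1 h2
        rw [hs]
        exact le_csSup hAb (by rw [hA]; exact ⟨h1, h2⟩)
      have hys : e y < s := by
        obtain ⟨n, hn1, hn2⟩ := hden _ _ hq
        exact lt_of_lt_of_le hn1 (hle _ hn1.le (sr_mk hpq hp hq (by linarith) hn2))
      have hlow : ∀ z, e y ≤ z → z < s → Sr rl G (e y) z := by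
        intro z h1 h2
        rw [hs] at h2
        obtain ⟨a, ha, ha2⟩ := exists_lt_of_lt_csSup hAn h2
        rw [hA] at ha
        obtain ⟨p', q', h3, h4, h5, h6, h7⟩ := sr_out ha.2
        exact sr_mk h3 h4 h5 (by linarith) (by linarith)
      have hns : ¬ Sr rl G (e y) s := by
        intro hcon
        obtain ⟨p', q', h3, h4, h5, h6, h7⟩ := sr_out hcon
        obtain ⟨n, hn1, hn2⟩ := hden _ _ h7
        have h8 := hle (e n) (by linarith) (sr_mk h3 h4 h5 (by linarith) hn2)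
        linarith
      by_cases hWs : Ws rl G s
      · right
        obtain ⟨a, b, hab, ha, hb⟩ := ws_out hWs
        obtain ⟨t, ht1, ht2⟩ := hden (max a (e y)) s (max_lt ha hys)
        obtain ⟨z, hz1, hz2⟩ := hden s b hb
        have ht3 := lt_of_le_of_lt (le_max_left _ _) ht1
        have ht4 := lt_of_le_of_lt (le_max_right _ _) ht1
        refine ⟨t, z, (hord _ _).2 ht4, (hord _ _).2 (by linarith), ?_, ?_, ?_⟩
        · rw [tSr]
          exact hlow _ ht4.le ht2
        · rw [tSr]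
          exact sr_mk hab ht3 (by linarith) (by linarith) hz2
        · rw [tSr]
          intro hcon
          obtain ⟨p', q', h3, h4, h5, h6, h7⟩ := sr_out hcon
          exact hns (sr_mk h3 h4 h5 (by linarith) (by linarith))
      · left
        obtain ⟨x, rfl⟩ := hR.es s (Or.inr ⟨hWs, e y, Or.inl ⟨hys, fun z h1 h2 =>
          hlow z (le_of_lt h1) h2⟩⟩)
        refine ⟨x, (hord _ _).2 hys, fun hcon => hWs ((tWs x).1 hcon), ?_⟩
        intro z h1 h2
        rw [hord] at h1 h2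
        rw [tSr]
        exact hlow _ h1.le h2
    · -- k2'
      intro y m hW hym hnS
      rw [tWs] at hW
      rw [hord] at hym
      rw [tSr] at hnS
      obtain ⟨p, q, hpq, hp, hq⟩ := ws_out hW
      have hbd : ∀ z, z ≤ e y → Sr rl G (e y) z → e m < z := by
        intro z hz1 hz2
        by_contra hcon
        obtain ⟨a, b, h1, h2, h3, h4, h5⟩ := sr_out hz2
        exact hnS (sr_mk h1 h2 h3 (by linarith) (by linarith))
      obtain ⟨A, hA⟩ : ∃ A : Set ℝ, A = {z | z ≤ e y ∧ Sr rl G (e y) z} := ⟨_, rfl⟩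
      have hAb : BddBelow A := ⟨e m, by rw [hA]; rintro z ⟨h1, h2⟩; exact (hbd z h1 h2).le⟩
      have hAn : A.Nonempty := ⟨e y, by rw [hA]; exact ⟨le_rfl, sr_mk hpq hp hq hp hq⟩⟩
      obtain ⟨s, hs⟩ : ∃ s, s = sInf A := ⟨_, rfl⟩
      have hle : ∀ z, z ≤ e y → Sr rl G (e y) z → s ≤ z := by
        intro z h1 h2
        rw [hs]
        exact csInf_le hAb (by rw [hA]; exact ⟨h1, h2⟩)
      have hys : s < e y := by
        obtain ⟨n, hn1, hn2⟩ := hden _ _ hp
        exact lt_of_le_of_lt (hle _ hn2.le (sr_mk hpq hp hq hn1 (by linarith))) hn2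
      have hlow : ∀ z, z ≤ e y → s < z → Sr rl G (e y) z := by
        intro z h1 h2
        rw [hs] at h2
        obtain ⟨a, ha, ha2⟩ := exists_lt_of_csInf_lt hAn h2
        rw [hA] at ha
        obtain ⟨p', q', h3, h4, h5, h6, h7⟩ := sr_out ha.2
        exact sr_mk h3 h4 h5 (by linarith) (by linarith)
      have hns : ¬ Sr rl G (e y) s := by
        intro hcon
        obtain ⟨p', q', h3, h4, h5, h6, h7⟩ := sr_out hcon
        obtain ⟨n, hn1, hn2⟩ := hden _ _ h6
        have h8 := hle (e n) (by linarith) (sr_mk h3 h4 h5 hn1 (by linarith))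
        linarith
      by_cases hWs : Ws rl G s
      · right
        obtain ⟨a, b, hab, ha, hb⟩ := ws_out hWs
        obtain ⟨t, ht1, ht2⟩ := hden s (min b (e y)) (lt_min hb hys)
        obtain ⟨z, hz1, hz2⟩ := hden a s ha
        have ht3 := lt_of_lt_of_le ht2 (min_le_left _ _)
        have ht4 := lt_of_lt_of_le ht2 (min_le_right _ _)
        refine ⟨t, z, (hord _ _).2 ht4, (hord _ _).2 (by linarith), ?_, ?_, ?_⟩
        · rw [tSr]
          exact hlow _ ht4.le ht1
        · rw [tSr]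
          exact sr_mk hab (by linarith) ht3 hz1 (by linarith)
        · rw [tSr]
          intro hcon
          obtain ⟨p', q', h3, h4, h5, h6, h7⟩ := sr_out hcon
          exact hns (sr_mk h3 h4 h5 (by linarith) (by linarith))
      · left
        obtain ⟨x, rfl⟩ := hR.es s (Or.inr ⟨hWs, e y, Or.inr ⟨hys, fun z h1 h2 =>
          hlow z (le_of_lt h2) h1⟩⟩)
        refine ⟨x, (hord _ _).2 hys, fun hcon => hWs ((tWs x).1 hcon), ?_⟩
        intro z h1 h2
        rw [hord] at h1 h2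
        rw [tSr]
        exact hlow _ h2.le h1
    · -- k3
      intro x
      by_cases hx : e x ∈ Fc G
      · left
        exact (tEs x).2 (hR.cl _ ⟨x, rfl⟩ hx)
      · right
        obtain ⟨ε, hε, h1⟩ := nb hx
        obtain ⟨p, hp1, hp2⟩ := hden (e x - ε) (e x) (by linarith)
        obtain ⟨q, hq1, hq2⟩ := hden (e x) (e x + ε) (by linarith)
        refine ⟨p, q, (hord _ _).2 hp2, (hord _ _).2 hq1, ?_⟩
        intro z hz1 hz2 hz3
        rw [hord] at hz1 hz2
        exact h1 _ (by rw [abs_lt]; constructor <;> linarith) (fc_of ((tEs z).1 hz3))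
    · -- k4
      rintro x y hxy ⟨p, q, hp, hq, hn⟩ hW
      rw [hord] at hxy hp hq
      have hno : ∀ z, e p < z → z < e q → ¬ Es rl G z := by
        intro z hz1 hz2 hz3
        obtain ⟨z0, rfl⟩ := hR.es z hz3
        exact hn z0 ((hord _ _).2 hz1) ((hord _ _).2 hz2) ((tEs z0).2 hz3)
      obtain ⟨i, hi⟩ := hR.tr _ ⟨x, rfl⟩ _ ⟨y, rfl⟩ hxy (by
        intro z hz
        rw [uIcc_of_le hxy.le] at hz
        exact fc_int hno (lt_of_lt_of_le hp hz.1) (lt_of_le_of_lt hz.2 hq))
        (fun hcon => hW ((tWs x).2 hcon))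
      exact ⟨i, h.em.inj (by rw [h.eq, hi])⟩

end Pool.Agent.H74.ALV
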